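import Mathlib

/-!
Algebras of operators on reflexive Banach spaces and their invariant linear manifolds, part A:
duality and the local bound.
-/

set_option autoImplicit false

open Set Filter Topology

namespace Pool.Agent.Q89.AL

/-- `X` is reflexive: each functional on the dual is the evaluation at a vector. -/
def Refl (X : Type) [NormedAddCommGroup X] [NormedSpace ℂ X] : Prop :=
  ∀ ξ : (X →L[ℂ] ℂ) →L[ℂ] ℂ, ∃ x : X, ∀ f : X →L[ℂ] ℂ, ξ f = f x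

theorem sep {E : Type} [NormedAddCommGroup E] [NormedSpace ℂ E] (G : Submodule ℂ E) {x : E}
    (hx : x ∉ closure (G : Set E)) : ∃ ξ : E →L[ℂ] ℂ, (∀ g ∈ G, ξ g = 0) ∧ ξ x ≠ 0 := by
  have hcv : Convex ℝ (closure (G : Set E)) := (G.restrictScalars ℝ).convex.closure
  obtain ⟨f, u, hf, hu⟩ := RCLike.geometric_hahn_banach_closed_point (𝕜 := ℂ) hcv isClosed_closure hx
  have h0 : ∀ g ∈ G, f g = 0 := by
    intro g hg
    by_contra hne
    have h1 := hf (((u : ℂ) / f g) • g) (subset_closure (G.smul_mem _ hg))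
    rw [map_smul, smul_eq_mul, div_mul_cancel₀ _ hne] at h1
    exact absurd h1 (by simp)
  refine ⟨f, h0, fun h => ?_⟩
  have h2 := hf 0 (subset_closure G.zero_mem)
  rw [h] at hu
  rw [map_zero] at h2
  exact absurd (h2.trans hu) (lt_irrefl _)

variable {X : Type} [NormedAddCommGroup X] [NormedSpace ℂ X]

/-- The linear map `f ↦ f ∘ S` on the dual. -/
noncomputable def adjL (S : X →L[ℂ] X) : (X →L[ℂ] ℂ) →ₗ[ℂ] (X →L[ℂ] ℂ) where
  toFun f := f.comp S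
  map_add' f g := by ext; rfl
  map_smul' c f := by ext; rfl

theorem eq_of_dual {x y : X} (h : ∀ f : X →L[ℂ] ℂ, f x = f y) : x = y := by
  obtain ⟨g, -, hg⟩ := exists_dual_vector'' ℂ (x - y)
  have h1 : g (x - y) = 0 := by rw [map_sub, h g, sub_self]
  rw [h1] at hg
  have : ‖x - y‖ = 0 := Complex.ofReal_eq_zero.1 hg.symm
  exact sub_eq_zero.1 (norm_eq_zero.1 this)

theorem ext_bound {E : Type} [NormedAddCommGroup E] [NormedSpace ℂ E] (G : Submodule ℂ E)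
    (ev : G →ₗ[ℂ] ℂ) (c : ℝ) (hc : 0 ≤ c) (h : ∀ g : G, ‖ev g‖ ≤ c * ‖(g : E)‖) :
    ∃ ξ : E →L[ℂ] ℂ, (∀ g : G, ξ g = ev g) ∧ ‖ξ‖ ≤ c := by
  obtain ⟨ξ, hξ, hn⟩ := exists_extension_norm_eq G (ev.mkContinuous c h)
  exact ⟨ξ, fun g => hξ g, hn.le.trans (ev.mkContinuous_norm_le hc h)⟩

/-- If `|f y| ≤ c ‖f ∘ S‖` for all functionals then `y` is the image of a vector of norm at most
`c`. -/
theorem preimage (hX : Refl X) (S : X →L[ℂ] X) (hd : DenseRange S) (y : X) (c : ℝ)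
    (hc : 0 ≤ c) (h : ∀ f : X →L[ℂ] ℂ, ‖f y‖ ≤ c * ‖f.comp S‖) : ∃ z, S z = y ∧ ‖z‖ ≤ c := by
  have hinj : Function.Injective (adjL S) := by
    intro f g hfg
    refine ContinuousLinearMap.ext fun x => ?_
    have h1 : (f : X → ℂ) ∘ S = g ∘ S := by
      funext z
      exact congrArg (fun k : X →L[ℂ] ℂ => k z) hfg
    exact congrFun (hd.equalizer f.continuous g.continuous h1) x
  let e := LinearEquiv.ofInjective (adjL S) hinj
  let ev : LinearMap.range (adjL S) →ₗ[ℂ] ℂ :=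
    ((ContinuousLinearMap.apply ℂ ℂ y : (X →L[ℂ] ℂ) →L[ℂ] ℂ) : (X →L[ℂ] ℂ) →ₗ[ℂ] ℂ).comp
      (e.symm : LinearMap.range (adjL S) →ₗ[ℂ] (X →L[ℂ] ℂ))
  have hev : ∀ f : X →L[ℂ] ℂ, ev (e f) = f y := by
    intro f
    show (ContinuousLinearMap.apply ℂ ℂ y : (X →L[ℂ] ℂ) →L[ℂ] ℂ) (e.symm (e f)) = f y
    rw [LinearEquiv.symm_apply_apply]
    rfl
  have hef : ∀ f : X →L[ℂ] ℂ, ((e f : LinearMap.range (adjL S)) : X →L[ℂ] ℂ) = f.comp S :=
    fun f => rfl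
  obtain ⟨ξ, hξ, hn⟩ := ext_bound (E := X →L[ℂ] ℂ) (LinearMap.range (adjL S)) ev c hc (by
    intro g
    obtain ⟨f, rfl⟩ := e.surjective g
    rw [hev, hef]
    exact h f)
  obtain ⟨z, hz⟩ := hX ξ
  refine ⟨z, eq_of_dual fun f => ?_, ?_⟩
  · have h1 := hξ (e f)
    rw [hev, hef, hz] at h1
    exact h1
  · obtain ⟨g, hg1, hg⟩ := exists_dual_vector'' ℂ z
    have h6 : ‖ξ g‖ = ‖z‖ := by
      rw [hz g, hg]
      simp
    calc ‖z‖ = ‖ξ g‖ := h6.symm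
      _ ≤ ‖ξ‖ * ‖g‖ := ξ.le_opNorm g
      _ ≤ ‖ξ‖ * 1 := by gcongr
      _ = ‖ξ‖ := mul_one _
      _ ≤ c := hn

theorem adj_dense (hX : Refl X) (S : X →L[ℂ] X) (hS : Function.Injective S) (f : X →L[ℂ] ℂ)
    {ε : ℝ} (hε : 0 < ε) : ∃ g : X →L[ℂ] ℂ, ‖f - g.comp S‖ < ε := by
  by_contra hcon
  push Not at hcon
  have hnot : f ∉ closure ((LinearMap.range (adjL S) : Submodule ℂ (X →L[ℂ] ℂ)) :
      Set (X →L[ℂ] ℂ)) := by
    intro hf
    obtain ⟨g, hg, hlt⟩ := Metric.mem_closure_iff.1 hf ε hε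
    obtain ⟨g', rfl⟩ := hg
    rw [dist_eq_norm] at hlt
    exact absurd hlt (not_lt.2 (hcon g'))
  obtain ⟨ξ, hξ, hne⟩ := sep _ hnot
  obtain ⟨x, hx⟩ := hX ξ
  have h0 : S x = 0 := by
    refine eq_of_dual fun g => ?_
    have h1 := hξ (adjL S g) ⟨g, rfl⟩
    rw [hx] at h1
    rw [map_zero]
    exact h1
  have hx0 : x = 0 := hS (by rw [h0, map_zero])
  apply hne
  rw [hx, hx0, map_zero]

/-- `Y x` can be approximated by the values `C x` with `C` in a bounded part of the algebra. -/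
def Apx (A : Set (X →L[ℂ] X)) (Y : X →L[ℂ] X) (x : X) : Prop :=
  ∃ k : ℝ, ∀ ε > 0, ∃ C ∈ A, ‖C‖ ≤ k ∧ ‖C x - Y x‖ < ε

/-- A ball with a uniform bound. -/
theorem ball_of_nonmeagre {A : Set (X →L[ℂ] X)} {Y : X →L[ℂ] X}
    (h : ¬ IsMeagre {x | Apx A Y x}) :
    ∃ (k : ℝ) (y₀ : X) (ρ : ℝ), 0 ≤ k ∧ 0 < ρ ∧
      ∀ y ∈ Metric.ball y₀ ρ, ∀ ε > 0, ∃ C ∈ A, ‖C‖ ≤ k ∧ ‖C y - Y y‖ < ε := by
  let F : ℕ → Set X := fun n => {x | ∀ ε > 0, ∃ C ∈ A, ‖C‖ ≤ n ∧ ‖C x - Y x‖ < ε}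
  have hcl : ∀ n, IsClosed (F n) := by
    intro n
    refine isClosed_of_closure_subset fun x hx ε hε => ?_
    set c : ℝ := (n : ℝ) + ‖Y‖ + 1 with hc
    have hc0 : 0 < c := by positivity
    obtain ⟨y, hy, hlt⟩ := Metric.mem_closure_iff.1 hx (ε / 2 / c) (by positivity)
    rw [dist_eq_norm] at hlt
    obtain ⟨C, hC, hk, hCy⟩ := hy (ε / 2) (by positivity)
    refine ⟨C, hC, hk, ?_⟩
    have e : C x - Y x = C (x - y) - Y (x - y) + (C y - Y y) := by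
      rw [map_sub, map_sub]; abel
    rw [e]
    calc ‖C (x - y) - Y (x - y) + (C y - Y y)‖
        ≤ ‖C (x - y)‖ + ‖Y (x - y)‖ + ‖C y - Y y‖ :=
          (norm_add_le _ _).trans (by gcongr; exact norm_sub_le _ _)
      _ ≤ n * ‖x - y‖ + ‖Y‖ * ‖x - y‖ + ‖C y - Y y‖ := by
          gcongr
          · exact (C.le_opNorm _).trans (by gcongr)
          · exact Y.le_opNorm _
      _ = (n + ‖Y‖) * ‖x - y‖ + ‖C y - Y y‖ := by ring
      _ ≤ c * (ε / 2 / c) + ‖C y - Y y‖ := by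
          gcongr
          rw [hc]; linarith
      _ = ε / 2 + ‖C y - Y y‖ := by field_simp
      _ < ε := by linarith
  have hU : {x | Apx A Y x} ⊆ ⋃ n, F n := by
    rintro x ⟨k, hk⟩
    obtain ⟨n, hn⟩ := exists_nat_ge k
    refine mem_iUnion.2 ⟨n, fun ε hε => ?_⟩
    obtain ⟨C, hC, hCk, hCx⟩ := hk ε hε
    exact ⟨C, hC, hCk.trans hn, hCx⟩
  obtain ⟨n, hn⟩ : ∃ n, (interior (F n)).Nonempty := by
    by_contra hcon
    push Not at hcon
    refine h ((isMeagre_iUnion fun n => IsNowhereDense.isMeagre ?_).mono hU)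
    show interior (closure (F n)) = ∅
    rw [(hcl n).closure_eq]
    exact hcon n
  obtain ⟨y₀, hy₀⟩ := hn
  obtain ⟨ρ, hρ, hb⟩ := Metric.mem_nhds_iff.1 (isOpen_interior.mem_nhds hy₀)
  exact ⟨n, y₀, ρ, Nat.cast_nonneg n, hρ, fun y hy => interior_subset (hb hy)⟩

theorem univ_nonmeagre [CompleteSpace X] {A : Set (X →L[ℂ] X)} {Y : X →L[ℂ] X}
    (h : ∀ x, Apx A Y x) : ¬ IsMeagre {x | Apx A Y x} := by
  intro hm
  have h1 : {x | Apx A Y x} = univ := eq_univ_of_forall h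
  rw [h1] at hm
  have h2 : (univ : Set X)ᶜ ∈ residual X := hm
  rw [compl_univ] at h2
  obtain ⟨x, hx⟩ := (dense_of_mem_residual h2).nonempty
  exact hx

/-- The dual estimate. -/
theorem fbound {A : Set (X →L[ℂ] X)} {Y S : X →L[ℂ] X} (hcomm : ∀ C ∈ A, C * S = S * C)
    {x : X} {k : ℝ} (hk : 0 ≤ k) (h : ∀ ε > 0, ∃ C ∈ A, ‖C‖ ≤ k ∧ ‖C (S x) - Y (S x)‖ < ε)
    (f : X →L[ℂ] ℂ) : ‖f (Y (S x))‖ ≤ k * ‖x‖ * ‖f.comp S‖ := by
  refine le_of_forall_pos_le_add fun ε hε => ?_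
  set c : ℝ := ‖f‖ + 1 with hc
  have hc0 : 0 < c := by positivity
  obtain ⟨C, hC, hCk, hCz⟩ := h (ε / c) (by positivity)
  have h1 : Y (S x) = S (C x) - (C (S x) - Y (S x)) := by
    have h2 : C (S x) = S (C x) := congrArg (fun B : X →L[ℂ] X => B x) (hcomm C hC)
    rw [← h2]
    abel
  have h4 : ‖f (S (C x))‖ ≤ k * ‖x‖ * ‖f.comp S‖ := by
    have h5 : f (S (C x)) = (f.comp S) (C x) := rfl
    rw [h5]
    calc ‖(f.comp S) (C x)‖ ≤ ‖f.comp S‖ * ‖C x‖ := (f.comp S).le_opNorm _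
      _ ≤ ‖f.comp S‖ * (‖C‖ * ‖x‖) := by gcongr; exact C.le_opNorm x
      _ ≤ ‖f.comp S‖ * (k * ‖x‖) := by gcongr
      _ = k * ‖x‖ * ‖f.comp S‖ := by ring
  rw [h1, map_sub]
  calc ‖f (S (C x)) - f (C (S x) - Y (S x))‖
      ≤ ‖f (S (C x))‖ + ‖f (C (S x) - Y (S x))‖ := norm_sub_le _ _
    _ ≤ k * ‖x‖ * ‖f.comp S‖ + ‖f‖ * (ε / c) := by
        refine add_le_add h4 ((f.le_opNorm _).trans ?_)
        gcongr
    _ ≤ k * ‖x‖ * ‖f.comp S‖ + ε := by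
        gcongr
        calc ‖f‖ * (ε / c) ≤ c * (ε / c) := by gcongr; rw [hc]; linarith
          _ = ε := by field_simp

/-- **The local bound.** If `S₀` has dense range then, for all `S` close to `S₀` which are injective
with dense range and commute with the algebra, the solutions `Z` of `S Z = Y S` are bounded by the
same constant. -/
theorem locbound (hX : Refl X) {A : Set (X →L[ℂ] X)} {Y : X →L[ℂ] X}
    (hY : ¬ IsMeagre {x | Apx A Y x}) (S₀ : X →L[ℂ] X) (hd : DenseRange S₀) :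
    ∃ M : ℝ, ∀ᶠ S in 𝓝 S₀, (∀ C ∈ A, C * S = S * C) → Function.Injective S → DenseRange S →
      ∀ Z : X →L[ℂ] X, S * Z = Y * S → ‖Z‖ ≤ M := by
  obtain ⟨k, y₀, ρ, hk, hρ, hb⟩ := ball_of_nonmeagre hY
  obtain ⟨x₀, hx₀⟩ := hd.exists_mem_open (Metric.isOpen_ball (x := y₀) (ε := ρ))
    ⟨y₀, Metric.mem_ball_self hρ⟩
  -- by continuity of `(S, x) ↦ S x`
  have hcont : Continuous fun p : (X →L[ℂ] X) × X => p.1 p.2 :=
    isBoundedBilinearMap_apply.continuous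
  have hnh : ∀ᶠ p in 𝓝 ((S₀, x₀) : (X →L[ℂ] X) × X), p.1 p.2 ∈ Metric.ball y₀ ρ :=
    hcont.continuousAt.eventually (Metric.isOpen_ball.mem_nhds hx₀)
  rw [nhds_prod_eq] at hnh
  obtain ⟨pa, hpa, pb, hpb, hab⟩ := Filter.eventually_prod_iff.1 hnh
  obtain ⟨δ, hδ, hball⟩ := Metric.eventually_nhds_iff.1 hpb
  refine ⟨k * (‖x₀‖ + δ) * 2 / (δ / 2), hpa.mono fun S hS hcomm hinj hdS Z hZ => ?_⟩
  -- the bound for `Z x`, `x` close to `x₀`
  have hZx : ∀ x, dist x x₀ < δ → ‖Z x‖ ≤ k * ‖x‖ := by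
    intro x hx
    have hSx : S x ∈ Metric.ball y₀ ρ := hab hS (hball hx)
    have hSZ : S (Z x) = Y (S x) := congrArg (fun B : X →L[ℂ] X => B x) hZ
    obtain ⟨z, hz, hzn⟩ := preimage hX S hdS (Y (S x)) _ (mul_nonneg hk (norm_nonneg x))
      (fbound hcomm hk (hb _ hSx))
    rw [← hSZ] at hz
    rw [← hinj hz]
    exact hzn
  -- hence a bound for `‖Z‖`
  refine Z.opNorm_le_bound (by positivity) fun h => ?_
  by_cases h0 : h = 0
  · rw [h0]; simp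
  have hn : 0 < ‖h‖ := norm_pos_iff.2 h0
  set t : ℝ := δ / 2 / ‖h‖ with ht
  have ht0 : 0 < t := by positivity
  have hth : ‖(t : ℂ) • h‖ = δ / 2 := by
    rw [norm_smul, Complex.norm_real, Real.norm_of_nonneg ht0.le, ht]
    field_simp
  have e1 : ‖Z (x₀ + (t : ℂ) • h)‖ ≤ k * ‖x₀ + (t : ℂ) • h‖ := by
    refine hZx _ ?_
    rw [dist_eq_norm, add_sub_cancel_left, hth]
    linarith
  have e2 : ‖Z x₀‖ ≤ k * ‖x₀‖ := hZx _ (by rw [dist_self]; exact hδ)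
  have e3 : ‖x₀ + (t : ℂ) • h‖ ≤ ‖x₀‖ + δ := by
    refine (norm_add_le _ _).trans ?_
    rw [hth]; linarith
  have e4 : (t : ℂ) • Z h = Z (x₀ + (t : ℂ) • h) - Z x₀ := by
    rw [map_add, map_smul]; abel
  have e5 : t * ‖Z h‖ ≤ k * (‖x₀‖ + δ) * 2 := by
    have e6 : ‖(t : ℂ) • Z h‖ = t * ‖Z h‖ := by
      rw [norm_smul, Complex.norm_real, Real.norm_of_nonneg ht0.le]
    rw [← e6, e4]
    calc ‖Z (x₀ + (t : ℂ) • h) - Z x₀‖ ≤ ‖Z (x₀ + (t : ℂ) • h)‖ + ‖Z x₀‖ := norm_sub_le _ _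
      _ ≤ k * (‖x₀‖ + δ) + k * (‖x₀‖ + δ) := by
          refine add_le_add (e1.trans (by gcongr)) (e2.trans ?_)
          gcongr
          linarith
      _ = k * (‖x₀‖ + δ) * 2 := by ring
  have e7 : ‖Z h‖ ≤ k * (‖x₀‖ + δ) * 2 / t := by
    rw [le_div_iff₀ ht0]; linarith
  refine e7.trans (le_of_eq ?_)
  rw [ht]
  field_simp

end Pool.Agent.Q89.AL
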