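import Pool.Agent.Q89.AL.A

/-!
Algebras of operators on reflexive Banach spaces and their invariant linear manifolds, part B:
the intertwining operators and their uniform bound.
-/

set_option autoImplicit false

open Set Filter Topology

namespace Pool.Agent.Q89.AL

variable {X : Type} [NormedAddCommGroup X] [NormedSpace ℂ X]

theorem existsZ [CompleteSpace X] (hX : Refl X) {A : Set (X →L[ℂ] X)} {Y : X →L[ℂ] X}
    (hY : ∀ x, Apx A Y x) (S : X →L[ℂ] X) (hcomm : ∀ C ∈ A, C * S = S * C)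
    (hinj : Function.Injective S) (hd : DenseRange S) :
    ∃ Z : X →L[ℂ] X, S * Z = Y * S := by
  have h1 : ∀ x, ∃ z, S z = Y (S x) := by
    intro x
    obtain ⟨k, hk⟩ := hY (S x)
    have hk0 : 0 ≤ k := by
      obtain ⟨C, -, hC, -⟩ := hk 1 one_pos
      exact (norm_nonneg C).trans hC
    obtain ⟨z, hz, -⟩ := preimage hX S hd (Y (S x)) _ (mul_nonneg hk0 (norm_nonneg x))
      (fbound hcomm hk0 hk)
    exact ⟨z, hz⟩
  choose z hz using h1
  let g : X →ₗ[ℂ] X :=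
    { toFun := z
      map_add' := fun x y => hinj (by rw [map_add, hz, hz, hz, map_add, map_add])
      map_smul' := fun c x => hinj (by
        rw [RingHom.id_apply, map_smul, hz, hz, map_smul, map_smul]) }
  have hg : ∀ x, S (g x) = Y (S x) := hz
  have hcont : Continuous g := by
    refine g.continuous_of_seq_closed_graph fun u x y hu hgu => ?_
    have h2 : Tendsto (fun n => S (g (u n))) atTop (𝓝 (S y)) :=
      (S.continuous.tendsto y).comp hgu
    have h3 : Tendsto (fun n => S (g (u n))) atTop (𝓝 (S (g x))) := by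
      simp only [hg]
      exact ((Y.continuous.comp S.continuous).tendsto x).comp hu
    exact hinj (tendsto_nhds_unique h2 h3)
  exact ⟨⟨g, hcont⟩, ContinuousLinearMap.ext fun x => hg x⟩

/-- No nontrivial closed invariant subspaces. -/
def Trans (A : Set (X →L[ℂ] X)) : Prop :=
  ∀ V : Submodule ℂ X, IsClosed (V : Set X) → (∀ C ∈ A, ∀ x ∈ V, C x ∈ V) → V = ⊥ ∨ V = ⊤

theorem inj_of_comm {A : Set (X →L[ℂ] X)} (hA : Trans A) (L : X →L[ℂ] X) (hL : L ≠ 0)
    (hcomm : ∀ C ∈ A, C * L = L * C) : Function.Injective L := by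
  rcases hA (LinearMap.ker (L : X →ₗ[ℂ] X)) (ContinuousLinearMap.isClosed_ker L) (by
    intro C hC x hx
    have hx' : L x = 0 := hx
    show L (C x) = 0
    have h1 : C (L x) = L (C x) := congrArg (fun B : X →L[ℂ] X => B x) (hcomm C hC)
    rw [← h1, hx', map_zero]) with h | h
  · have := LinearMap.ker_eq_bot.1 h
    exact this
  · exfalso
    apply hL
    ext x
    have : x ∈ LinearMap.ker (L : X →ₗ[ℂ] X) := by rw [h]; trivial
    exact this

theorem dense_of_comm {A : Set (X →L[ℂ] X)} (hA : Trans A) (L : X →L[ℂ] X) (hL : L ≠ 0)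
    (hcomm : ∀ C ∈ A, C * L = L * C) : DenseRange L := by
  rcases hA (LinearMap.range (L : X →ₗ[ℂ] X)).topologicalClosure
    (Submodule.isClosed_topologicalClosure _) (by
    intro C hC x hx
    have h0 : MapsTo C (LinearMap.range (L : X →ₗ[ℂ] X) : Set X)
        (LinearMap.range (L : X →ₗ[ℂ] X) : Set X) := by
      rintro _ ⟨y, rfl⟩
      exact ⟨C y, (congrArg (fun B : X →L[ℂ] X => B y) (hcomm C hC)).symm⟩
    exact h0.closure C.continuous hx) with h | h
  · exfalso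
    apply hL
    ext x
    have h1 : L x ∈ (LinearMap.range (L : X →ₗ[ℂ] X)).topologicalClosure :=
      Submodule.le_topologicalClosure _ ⟨x, rfl⟩
    rw [h] at h1
    exact (Submodule.mem_bot ℂ).1 h1
  · have h1 : ((LinearMap.range (L : X →ₗ[ℂ] X)).topologicalClosure : Set X) = univ := by
      rw [h]; rfl
    rw [Submodule.topologicalClosure_coe] at h1
    intro x
    have : x ∈ closure ((LinearMap.range (L : X →ₗ[ℂ] X) : Submodule ℂ X) : Set X) := by
      rw [h1]; trivial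
    exact this

/-- The operators `a T + b`. -/
noncomputable def lin (T : X →L[ℂ] X) (v : ℂ × ℂ) : X →L[ℂ] X := v.1 • T + v.2 • 1

theorem lin_ne {T : X →L[ℂ] X} (hT : ∀ c : ℂ, T ≠ c • 1) {v : ℂ × ℂ} (hv : v ≠ 0) :
    lin T v ≠ 0 := by
  intro h
  unfold lin at h
  by_cases h1 : v.1 = 0
  · have h2 : v.2 ≠ 0 := fun h2 => hv (Prod.ext h1 h2)
    rw [h1, zero_smul, zero_add] at h
    rcases smul_eq_zero.1 h with h3 | h3
    · exact h2 h3
    · refine hT 0 ?_
      have : T = T * 1 := (mul_one T).symm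
      rw [this, h3, mul_zero, smul_zero]
  · refine hT (-(v.1⁻¹ * v.2)) ?_
    have h4 : v.1 • T = -(v.2 • (1 : X →L[ℂ] X)) := eq_neg_of_add_eq_zero_left h
    calc T = v.1⁻¹ • (v.1 • T) := by rw [inv_smul_smul₀ h1]
      _ = -(v.1⁻¹ * v.2) • (1 : X →L[ℂ] X) := by rw [h4, smul_neg, smul_smul, neg_smul]

theorem lin_comm {A : Set (X →L[ℂ] X)} {T : X →L[ℂ] X} (hT : ∀ C ∈ A, C * T = T * C)
    (v : ℂ × ℂ) : ∀ C ∈ A, C * lin T v = lin T v * C := by
  intro C hC
  unfold lin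
  rw [mul_add, add_mul, mul_smul_comm, smul_mul_assoc, hT C hC, mul_smul_comm, smul_mul_assoc,
    mul_one, one_mul]

theorem lin_smul (T : X →L[ℂ] X) (c : ℂ) (v : ℂ × ℂ) : lin T (c • v) = c • lin T v := by
  unfold lin
  rw [smul_add, smul_smul, smul_smul]
  rfl

/-- The uniform bound. -/
theorem unif [CompleteSpace X] (hX : Refl X) {A : Set (X →L[ℂ] X)} (hA : Trans A)
    {T Y : X →L[ℂ] X} (hT : ∀ C ∈ A, C * T = T * C) (hns : ∀ c : ℂ, T ≠ c • 1)
    (hY : ∀ x, Apx A Y x) :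
    ∃ M : ℝ, ∀ u v : ℂ × ℂ, u ≠ 0 → v ≠ 0 → ∃ Z : X →L[ℂ] X,
      ‖Z‖ ≤ M ∧ lin T u * lin T v * Z = Y * (lin T u * lin T v) := by
  let P : Set ((ℂ × ℂ) × (ℂ × ℂ)) := Metric.sphere 0 1 ×ˢ Metric.sphere 0 1
  have hP : IsCompact P := (isCompact_sphere _ _).prod (isCompact_sphere _ _)
  let S : (ℂ × ℂ) × (ℂ × ℂ) → (X →L[ℂ] X) := fun p => lin T p.1 * lin T p.2
  have hS : Continuous S := by
    have h1 : Continuous (lin T) := by unfold lin; fun_prop
    exact (h1.comp continuous_fst).mul (h1.comp continuous_snd)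
  have hinj : ∀ u v : ℂ × ℂ, u ≠ 0 → v ≠ 0 → Function.Injective (S (u, v)) := fun u v hu hv =>
    (inj_of_comm hA _ (lin_ne hns hu) (lin_comm hT u)).comp
      (inj_of_comm hA _ (lin_ne hns hv) (lin_comm hT v))
  have hden : ∀ u v : ℂ × ℂ, u ≠ 0 → v ≠ 0 → DenseRange (S (u, v)) := fun u v hu hv =>
    (dense_of_comm hA _ (lin_ne hns hu) (lin_comm hT u)).comp
      (dense_of_comm hA _ (lin_ne hns hv) (lin_comm hT v)) (lin T u).continuous
  have hcomm : ∀ u v : ℂ × ℂ, ∀ C ∈ A, C * S (u, v) = S (u, v) * C := fun u v C hC => by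
    show C * (lin T u * lin T v) = lin T u * lin T v * C
    rw [← mul_assoc, lin_comm hT u C hC, mul_assoc, lin_comm hT v C hC, mul_assoc]
  have hne : ∀ p ∈ P, p.1 ≠ 0 ∧ p.2 ≠ 0 := by
    rintro p ⟨h1, h2⟩
    exact ⟨ne_zero_of_mem_unit_sphere ⟨p.1, h1⟩, ne_zero_of_mem_unit_sphere ⟨p.2, h2⟩⟩
  have key : ∃ M : ℝ, ∀ q ∈ P, ∀ Z : X →L[ℂ] X, S q * Z = Y * S q → ‖Z‖ ≤ M := by
    refine hP.induction_on (p := fun t => ∃ M : ℝ, ∀ q ∈ t, ∀ Z : X →L[ℂ] X,
      S q * Z = Y * S q → ‖Z‖ ≤ M) ⟨0, fun q hq => absurd hq (notMem_empty q)⟩ ?_ ?_ ?_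
    · rintro s t hst ⟨M, hM⟩
      exact ⟨M, fun q hq => hM q (hst hq)⟩
    · rintro s t ⟨M, hM⟩ ⟨N, hN⟩
      refine ⟨max M N, fun q hq Z hZ => ?_⟩
      rcases hq with hq | hq
      · exact (hM q hq Z hZ).trans (le_max_left _ _)
      · exact (hN q hq Z hZ).trans (le_max_right _ _)
    · intro p hp
      obtain ⟨M, hM⟩ := locbound hX (univ_nonmeagre hY) (S p)
        (hden p.1 p.2 (hne p hp).1 (hne p hp).2)
      refine ⟨P ∩ S ⁻¹' {S' | (∀ C ∈ A, C * S' = S' * C) → Function.Injective S' →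
        DenseRange S' → ∀ Z : X →L[ℂ] X, S' * Z = Y * S' → ‖Z‖ ≤ M},
        inter_mem self_mem_nhdsWithin
          (mem_nhdsWithin_of_mem_nhds (hS.continuousAt.preimage_mem_nhds hM)), M, ?_⟩
      rintro q ⟨hq, hq'⟩ Z hZ
      exact hq' (hcomm q.1 q.2) (hinj q.1 q.2 (hne q hq).1 (hne q hq).2)
        (hden q.1 q.2 (hne q hq).1 (hne q hq).2) Z hZ
  obtain ⟨M, hM⟩ := key
  refine ⟨M, fun u v hu hv => ?_⟩
  obtain ⟨Z, hZ⟩ := existsZ hX hY (S (u, v)) (hcomm u v) (hinj u v hu hv) (hden u v hu hv)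
  refine ⟨Z, ?_, hZ⟩
  have hnu : ‖u‖ ≠ 0 := norm_ne_zero_iff.2 hu
  have hnv : ‖v‖ ≠ 0 := norm_ne_zero_iff.2 hv
  set a : ℂ := ((‖u‖⁻¹ : ℝ) : ℂ) with ha
  set b : ℂ := ((‖v‖⁻¹ : ℝ) : ℂ) with hb
  refine hM (a • u, b • v) ⟨?_, ?_⟩ Z ?_
  · rw [mem_sphere_zero_iff_norm, norm_smul, ha, Complex.norm_real, norm_inv, norm_norm,
      inv_mul_cancel₀ hnu]
  · rw [mem_sphere_zero_iff_norm, norm_smul, hb, Complex.norm_real, norm_inv, norm_norm,
      inv_mul_cancel₀ hnv]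
  · have e : S (a • u, b • v) = (a * b) • S (u, v) := by
      show lin T (a • u) * lin T (b • v) = (a * b) • (lin T u * lin T v)
      rw [lin_smul, lin_smul, smul_mul_smul_comm]
    rw [e, smul_mul_assoc, mul_smul_comm, hZ]

end Pool.Agent.Q89.AL
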