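import Pool.Agent.Q89.AL.B

/-!
Algebras of operators on reflexive Banach spaces and their invariant linear manifolds, part C:
the theorem of Liouville and the end of the proof.
-/

set_option autoImplicit false

open Set Filter Topology

namespace Pool.Agent.Q89.AL

variable {X : Type} [NormedAddCommGroup X] [NormedSpace ℂ X]

theorem lin_one (T : X →L[ℂ] X) : lin T (0, 1) = 1 := by
  unfold lin
  simp

theorem lin_sub (T : X →L[ℂ] X) (μ : ℂ) : lin T (1, -μ) = T - μ • 1 := by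
  unfold lin
  simp [sub_eq_add_neg]

theorem Qexists [CompleteSpace X] (hX : Refl X) {A : Set (X →L[ℂ] X)} (hA : Trans A)
    {T Y : X →L[ℂ] X} (hT : ∀ C ∈ A, C * T = T * C) (hns : ∀ c : ℂ, T ≠ c • 1)
    (hY : ∀ x, Apx A Y x) :
    ∃ M : ℝ, 0 ≤ M ∧ ∀ μ ν : ℂ, ∃ Q : X →L[ℂ] X, ‖Q‖ ≤ M ∧
      (T - μ • 1) * ((T - ν • 1) * Q) = (Y * T - T * Y) * T - T * (Y * T - T * Y) := by
  obtain ⟨M, hM⟩ := unif hX hA hT hns hY
  have hM0 : 0 ≤ M := by
    obtain ⟨Z, hZ, -⟩ := hM (1, 0) (1, 0) (by simp) (by simp)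
    exact (norm_nonneg Z).trans hZ
  refine ⟨M + M + M + ‖Y‖, by positivity, fun μ ν => ?_⟩
  have hne : ∀ μ : ℂ, ((1, -μ) : ℂ × ℂ) ≠ 0 := fun μ h => one_ne_zero (congrArg Prod.fst h)
  have h01 : ((0, 1) : ℂ × ℂ) ≠ 0 := fun h => one_ne_zero (congrArg Prod.snd h)
  obtain ⟨Z, hZ, eZ⟩ := hM (1, -μ) (1, -ν) (hne μ) (hne ν)
  obtain ⟨W, hW, eW⟩ := hM (1, -μ) (0, 1) (hne μ) h01
  obtain ⟨V, hV, eV⟩ := hM (1, -ν) (0, 1) (hne ν) h01
  rw [lin_sub, lin_sub] at eZ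
  rw [lin_sub, lin_one, mul_one] at eW eV
  refine ⟨Z - W - V + Y, ?_, ?_⟩
  · calc ‖Z - W - V + Y‖ ≤ ‖Z - W - V‖ + ‖Y‖ := norm_add_le _ _
      _ ≤ ‖Z - W‖ + ‖V‖ + ‖Y‖ := by gcongr; exact norm_sub_le _ _
      _ ≤ ‖Z‖ + ‖W‖ + ‖V‖ + ‖Y‖ := by gcongr; exact norm_sub_le _ _
      _ ≤ M + M + M + ‖Y‖ := by gcongr
  · have hc : (T - μ • (1 : X →L[ℂ] X)) * (T - ν • 1) = (T - ν • 1) * (T - μ • 1) := by
      simp only [mul_sub, sub_mul, mul_smul_comm, smul_mul_assoc, mul_one, one_mul, smul_sub]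
      rw [smul_comm μ ν]
      abel
    have e1 : (T - μ • 1) * ((T - ν • 1) * Z) = Y * ((T - μ • 1) * (T - ν • 1)) := by
      rw [← mul_assoc, eZ]
    have e2 : (T - μ • 1) * ((T - ν • 1) * W) = (T - ν • 1) * (Y * (T - μ • 1)) := by
      rw [← mul_assoc, hc, mul_assoc, eW]
    have e3 : (T - μ • 1) * ((T - ν • 1) * V) = (T - μ • 1) * (Y * (T - ν • 1)) := by
      rw [eV]
    have e4 : (T - μ • (1 : X →L[ℂ] X)) * ((T - ν • 1) * (Z - W - V + Y)) =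
        Y * ((T - μ • 1) * (T - ν • 1)) - (T - ν • 1) * (Y * (T - μ • 1))
          - (T - μ • 1) * (Y * (T - ν • 1)) + (T - μ • 1) * ((T - ν • 1) * Y) := by
      rw [mul_add, mul_sub, mul_sub, mul_add, mul_sub, mul_sub, e1, e2, e3]
    rw [e4]
    simp only [mul_sub, sub_mul, mul_smul_comm, smul_mul_assoc, mul_one, one_mul, smul_sub,
      mul_assoc]
    rw [smul_comm μ ν]
    abel

/-- The second commutator vanishes. -/
theorem second_zero [CompleteSpace X] (hX : Refl X) {A : Set (X →L[ℂ] X)} (hA : Trans A)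
    {T Y : X →L[ℂ] X} (hT : ∀ C ∈ A, C * T = T * C) (hns : ∀ c : ℂ, T ≠ c • 1)
    (hY : ∀ x, Apx A Y x) :
    (Y * T - T * Y) * T - T * (Y * T - T * Y) = 0 := by
  obtain ⟨M, hM0, hM⟩ := Qexists hX hA hT hns hY
  set D : X →L[ℂ] X := (Y * T - T * Y) * T - T * (Y * T - T * Y) with hD
  choose Q hQn hQ using hM
  have hinj : ∀ μ : ℂ, Function.Injective (T - μ • (1 : X →L[ℂ] X)) := fun μ => by
    rw [← lin_sub]
    exact inj_of_comm hA _ (lin_ne hns fun h => one_ne_zero (congrArg Prod.fst h)) (lin_comm hT _)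
  have hcancel : ∀ (μ : ℂ) (B C : X →L[ℂ] X), (T - μ • 1) * B = (T - μ • 1) * C → B = C := by
    intro μ B C h
    ext x
    exact hinj μ (congrArg (fun B : X →L[ℂ] X => B x) h)
  have hc : ∀ μ ν : ℂ, (T - μ • (1 : X →L[ℂ] X)) * (T - ν • 1) = (T - ν • 1) * (T - μ • 1) := by
    intro μ ν
    simp only [mul_sub, sub_mul, mul_smul_comm, smul_mul_assoc, mul_one, one_mul, smul_sub]
    rw [smul_comm μ ν]
    abel
  -- the function `r`
  set r : ℂ → (X →L[ℂ] X) := fun μ => (T - (0 : ℂ) • 1) * Q μ 0 with hr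
  have hr1 : ∀ μ, (T - μ • 1) * r μ = D := fun μ => hQ μ 0
  have hr2 : ∀ μ ν, r μ = (T - ν • 1) * Q μ ν := fun μ ν =>
    hcancel μ _ _ (by rw [hr1, hQ])
  have hr3 : ∀ μ ν, r ν = (T - μ • 1) * Q μ ν := fun μ ν =>
    hcancel ν _ _ (by rw [hr1, ← mul_assoc, hc ν μ, mul_assoc, hQ])
  have hr4 : ∀ μ ν, r μ - r ν = (μ - ν) • Q μ ν := by
    intro μ ν
    rw [hr2 μ ν, hr3 μ ν, ← sub_mul]
    have : T - ν • (1 : X →L[ℂ] X) - (T - μ • 1) = (μ - ν) • 1 := by rw [sub_smul]; abel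
    rw [this, smul_mul_assoc, one_mul]
  have hrn : ∀ μ, ‖r μ‖ ≤ ‖T‖ * M := by
    intro μ
    have : r μ = T * Q μ 0 := by rw [hr]; simp
    rw [this]
    exact (norm_mul_le _ _).trans (by gcongr; exact hQn μ 0)
  -- `μ ↦ f (r μ x)` is entire
  have hder : ∀ (f : X →L[ℂ] ℂ) (x : X) (ν : ℂ),
      HasDerivAt (fun μ => f (r μ x)) (f (Q ν ν x)) ν := by
    intro f x ν
    rw [hasDerivAt_iff_tendsto_slope]
    have hslope : ∀ μ, μ ≠ ν → slope (fun μ => f (r μ x)) ν μ = f (Q μ ν x) := by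
      intro μ hμ
      have h1 : f (r μ x) - f (r ν x) = (μ - ν) * f (Q μ ν x) := by
        have h2 : r μ x - r ν x = (μ - ν) • Q μ ν x :=
          congrArg (fun B : X →L[ℂ] X => B x) (hr4 μ ν)
        rw [← map_sub, h2, map_smul, smul_eq_mul]
      rw [slope_def_field, h1, mul_div_cancel_left₀ _ (sub_ne_zero.2 hμ)]
    refine Tendsto.congr' (f₁ := fun μ => f (Q μ ν x)) ?_ ?_
    · filter_upwards [self_mem_nhdsWithin] with μ hμ
      exact (hslope μ hμ).symm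
    · refine (tendsto_nhdsWithin_of_tendsto_nhds ?_)
      rw [Metric.tendsto_nhds_nhds]
      intro ε hε
      set c : ℝ := 2 * M * ‖x‖ + 1 with hcdef
      have hc0 : 0 < c := by positivity
      obtain ⟨g, hg⟩ := adj_dense hX (T - ν • 1) (hinj ν) f (ε := ε / (2 * c)) (by positivity)
      obtain ⟨k, hk⟩ : ∃ k : X →L[ℂ] ℂ, k = f - g.comp (T - ν • (1 : X →L[ℂ] X)) := ⟨_, rfl⟩
      rw [← hk] at hg
      set d : ℝ := ‖g‖ * (M * ‖x‖) + 1 with hd
      have hd0 : 0 < d := by positivity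
      refine ⟨ε / (2 * d), by positivity, fun {μ} hμ => ?_⟩
      rw [dist_eq_norm] at hμ ⊢
      set w : X := Q μ ν x - Q ν ν x with hw
      have hwn : ‖w‖ ≤ c := by
        calc ‖w‖ ≤ ‖Q μ ν x‖ + ‖Q ν ν x‖ := norm_sub_le _ _
          _ ≤ ‖Q μ ν‖ * ‖x‖ + ‖Q ν ν‖ * ‖x‖ :=
              add_le_add ((Q μ ν).le_opNorm x) ((Q ν ν).le_opNorm x)
          _ ≤ M * ‖x‖ + M * ‖x‖ := by gcongr <;> exact hQn _ _
          _ ≤ c := by rw [hcdef]; linarith
      have hTw : (T - ν • (1 : X →L[ℂ] X)) w = (μ - ν) • Q μ ν x := by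
        rw [hw, map_sub]
        have h1 : (T - ν • (1 : X →L[ℂ] X)) (Q μ ν x) = r μ x :=
          (congrArg (fun B : X →L[ℂ] X => B x) (hr2 μ ν)).symm
        have h2 : (T - ν • (1 : X →L[ℂ] X)) (Q ν ν x) = r ν x :=
          (congrArg (fun B : X →L[ℂ] X => B x) (hr2 ν ν)).symm
        rw [h1, h2]
        exact congrArg (fun B : X →L[ℂ] X => B x) (hr4 μ ν)
      have hfw : f w = k w + g ((μ - ν) • Q μ ν x) := by
        rw [← hTw, hk]
        show f w = (f w - g ((T - ν • (1 : X →L[ℂ] X)) w)) + g ((T - ν • (1 : X →L[ℂ] X)) w)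
        ring
      rw [← map_sub, ← hw, hfw]
      have b1 : ‖k w‖ ≤ ε / 2 := by
        calc ‖k w‖ ≤ ‖k‖ * ‖w‖ := k.le_opNorm _
          _ ≤ (ε / (2 * c)) * c := by gcongr
          _ = ε / 2 := by field_simp
      have b2 : ‖g ((μ - ν) • Q μ ν x)‖ < ε / 2 := by
        calc ‖g ((μ - ν) • Q μ ν x)‖ ≤ ‖g‖ * ‖(μ - ν) • Q μ ν x‖ := g.le_opNorm _
          _ = ‖μ - ν‖ * (‖g‖ * ‖Q μ ν x‖) := by rw [norm_smul]; ring
          _ ≤ ‖μ - ν‖ * (‖g‖ * (M * ‖x‖)) := by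
              gcongr
              exact ((Q μ ν).le_opNorm x).trans (by gcongr; exact hQn _ _)
          _ ≤ ‖μ - ν‖ * d := by gcongr; rw [hd]; linarith
          _ < ε / (2 * d) * d := by gcongr
          _ = ε / 2 := by field_simp
      calc ‖k w + g ((μ - ν) • Q μ ν x)‖
          ≤ ‖k w‖ + ‖g ((μ - ν) • Q μ ν x)‖ := norm_add_le _ _
        _ < ε := by linarith
  -- Liouville
  have hconst : ∀ μ, r μ = r 0 := by
    intro μ
    ext x
    refine eq_of_dual fun f => ?_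
    have hdiff : Differentiable ℂ (fun μ => f (r μ x)) := fun ν => (hder f x ν).differentiableAt
    refine hdiff.apply_eq_apply_of_bounded ?_ μ 0
    refine isBounded_iff_forall_norm_le.2 ⟨‖f‖ * (‖T‖ * M * ‖x‖), ?_⟩
    rintro _ ⟨ν, rfl⟩
    refine (f.le_opNorm _).trans ?_
    gcongr
    exact ((r ν).le_opNorm x).trans (by gcongr; exact hrn ν)
  have h1 : r 0 = 0 := by
    have e0 := hr1 0
    have e1 := hr1 1
    rw [hconst 1, ← e0, zero_smul, sub_zero, one_smul, sub_mul, one_mul] at e1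
    have : T * r 0 - (T * r 0 - r 0) = 0 := by rw [e1, sub_self]
    rwa [sub_sub_cancel] at this
  rw [← hr1 0, h1, mul_zero]

/-- Orbits of algebras without closed invariant subspaces are dense. -/
theorem orbit_dense (A : Subalgebra ℂ (X →L[ℂ] X)) (hA : Trans (A : Set (X →L[ℂ] X))) (v : X)
    (hv : v ≠ 0) (x : X) {ε : ℝ} (hε : 0 < ε) : ∃ C ∈ A, ‖C v - x‖ < ε := by
  let O : Submodule ℂ X := (Subalgebra.toSubmodule A).map
    ((ContinuousLinearMap.apply ℂ X v : (X →L[ℂ] X) →L[ℂ] X) : (X →L[ℂ] X) →ₗ[ℂ] X)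
  have hO : ∀ C ∈ A, C v ∈ O := fun C hC => ⟨C, hC, rfl⟩
  have hO' : ∀ z ∈ O, ∃ C ∈ A, C v = z := by
    rintro _ ⟨C, hC, rfl⟩
    exact ⟨C, hC, rfl⟩
  rcases hA O.topologicalClosure (Submodule.isClosed_topologicalClosure _) (by
    intro C hC x hx
    have h0 : MapsTo C (O : Set X) (O : Set X) := by
      intro z hz
      obtain ⟨C', hC', rfl⟩ := hO' z hz
      exact hO (C * C') (A.mul_mem hC hC')
    exact h0.closure C.continuous hx) with h | h
  · exfalso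
    apply hv
    have h1 : v ∈ O.topologicalClosure := Submodule.le_topologicalClosure _ (hO 1 A.one_mem)
    rw [h] at h1
    exact (Submodule.mem_bot ℂ).1 h1
  · have h2 : x ∈ closure (O : Set X) := by
      rw [← Submodule.topologicalClosure_coe, h]
      trivial
    obtain ⟨z, hz, hlt⟩ := Metric.mem_closure_iff.1 h2 ε hε
    obtain ⟨C', hC', rfl⟩ := hO' z hz
    rw [dist_comm, dist_eq_norm] at hlt
    exact ⟨C', hC', hlt⟩

theorem kill (A : Subalgebra ℂ (X →L[ℂ] X)) (hA : Trans (A : Set (X →L[ℂ] X))) (v : X)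
    (hv : v ≠ 0) (B : X →L[ℂ] X) (hB : ∀ C ∈ A, B (C v) = 0) : B = 0 := by
  ext x
  have hx : x ∈ closure {z | B z = 0} := by
    refine Metric.mem_closure_iff.2 fun ε hε => ?_
    obtain ⟨C, hC, hlt⟩ := orbit_dense A hA v hv x hε
    exact ⟨C v, hB C hC, by rw [dist_comm, dist_eq_norm]; exact hlt⟩
  have hcl : IsClosed {z | B z = 0} := isClosed_eq B.continuous continuous_const
  rw [hcl.closure_eq] at hx
  exact hx

theorem apx_mul (A : Subalgebra ℂ (X →L[ℂ] X)) {Y Z : X →L[ℂ] X}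
    (hY : ∀ x, Apx (A : Set (X →L[ℂ] X)) Y x) (hZ : ∀ x, Apx (A : Set (X →L[ℂ] X)) Z x) :
    ∀ x, Apx (A : Set (X →L[ℂ] X)) (Y * Z) x := by
  intro x
  obtain ⟨k, hk⟩ := hZ x
  obtain ⟨l, hl⟩ := hY (Z x)
  have hl0 : 0 ≤ l := by
    obtain ⟨C, -, hC, -⟩ := hl 1 one_pos
    exact (norm_nonneg C).trans hC
  refine ⟨l * k, fun ε hε => ?_⟩
  obtain ⟨C, hC, hCk, hCx⟩ := hk (ε / 2 / (l + 1)) (by positivity)
  obtain ⟨D, hD, hDl, hDx⟩ := hl (ε / 2) (by positivity)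
  refine ⟨D * C, A.mul_mem hD hC, (norm_mul_le _ _).trans (by gcongr), ?_⟩
  have e : (D * C) x - (Y * Z) x = D (C x - Z x) + (D (Z x) - Y (Z x)) := by
    rw [map_sub]
    show D (C x) - Y (Z x) = _
    abel
  rw [e]
  calc ‖D (C x - Z x) + (D (Z x) - Y (Z x))‖ ≤ ‖D (C x - Z x)‖ + ‖D (Z x) - Y (Z x)‖ :=
        norm_add_le _ _
    _ ≤ (l + 1) * (ε / 2 / (l + 1)) + ‖D (Z x) - Y (Z x)‖ := by
        gcongr
        refine (D.le_opNorm _).trans ?_
        have : ‖D‖ ≤ l + 1 := by linarith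
        gcongr
    _ = ε / 2 + ‖D (Z x) - Y (Z x)‖ := by field_simp
    _ < ε := by linarith

/-- A nonmeager set of approximable vectors is everything. -/
theorem apx_all (A : Subalgebra ℂ (X →L[ℂ] X)) (hA : Trans (A : Set (X →L[ℂ] X)))
    {Y : X →L[ℂ] X} (hY : ¬ IsMeagre {x | Apx (A : Set (X →L[ℂ] X)) Y x}) :
    ∀ x, Apx (A : Set (X →L[ℂ] X)) Y x := by
  intro x
  by_cases hx : x = 0
  · refine ⟨0, fun ε hε => ⟨0, A.zero_mem, by simp, by rw [hx]; simpa using hε⟩⟩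
  obtain ⟨k, y₀, ρ, hk, hρ, hb⟩ := ball_of_nonmeagre hY
  obtain ⟨D, hD, hlt⟩ := orbit_dense A hA x hx y₀ (half_pos hρ)
  set t : ℝ := ρ / 2 / (‖x‖ + 1) with ht
  have ht0 : 0 < t := by positivity
  have htx : ‖(t : ℂ) • x‖ < ρ / 2 := by
    rw [norm_smul, Complex.norm_real, Real.norm_of_nonneg ht0.le, ht, div_mul_eq_mul_div,
      div_lt_iff₀ (by positivity)]
    gcongr
    linarith
  have m1 : D x ∈ Metric.ball y₀ ρ := by
    rw [mem_ball_iff_norm]; linarith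
  have m2 : D x + (t : ℂ) • x ∈ Metric.ball y₀ ρ := by
    rw [mem_ball_iff_norm]
    have : D x + (t : ℂ) • x - y₀ = (D x - y₀) + (t : ℂ) • x := by abel
    rw [this]
    exact (norm_add_le _ _).trans_lt (by linarith)
  refine ⟨t⁻¹ * (k * ‖D + (t : ℂ) • 1‖ + k * ‖D‖), fun ε hε => ?_⟩
  obtain ⟨C₁, hC₁, hk₁, h₁⟩ := hb _ m1 (ε * t / 2) (by positivity)
  obtain ⟨C₂, hC₂, hk₂, h₂⟩ := hb _ m2 (ε * t / 2) (by positivity)
  have hDt : D + (t : ℂ) • 1 ∈ A := A.add_mem hD (A.smul_mem A.one_mem _)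
  have htn : ‖((t⁻¹ : ℝ) : ℂ)‖ = t⁻¹ := by
    rw [Complex.norm_real, Real.norm_of_nonneg (inv_nonneg.2 ht0.le)]
  refine ⟨((t⁻¹ : ℝ) : ℂ) • (C₂ * (D + (t : ℂ) • 1) - C₁ * D),
    A.smul_mem (A.sub_mem (A.mul_mem hC₂ hDt) (A.mul_mem hC₁ hD)) _, ?_, ?_⟩
  · rw [norm_smul, htn]
    gcongr
    refine (norm_sub_le _ _).trans (add_le_add ?_ ?_)
    · exact (norm_mul_le _ _).trans (by gcongr)
    · exact (norm_mul_le _ _).trans (by gcongr)
  · have e : (((t⁻¹ : ℝ) : ℂ) • (C₂ * (D + (t : ℂ) • 1) - C₁ * D)) x - Y x =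
        ((t⁻¹ : ℝ) : ℂ) • ((C₂ (D x + (t : ℂ) • x) - Y (D x + (t : ℂ) • x)) -
          (C₁ (D x) - Y (D x))) := by
      have e1 : (((t⁻¹ : ℝ) : ℂ) • (C₂ * (D + (t : ℂ) • 1) - C₁ * D)) x =
          ((t⁻¹ : ℝ) : ℂ) • (C₂ (D x + (t : ℂ) • x) - C₁ (D x)) := rfl
      have e2 : Y x = ((t⁻¹ : ℝ) : ℂ) • (Y (D x + (t : ℂ) • x) - Y (D x)) := by
        rw [← map_sub, add_sub_cancel_left, map_smul, smul_smul, ← Complex.ofReal_mul,
          inv_mul_cancel₀ ht0.ne', Complex.ofReal_one, one_smul]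
      rw [e1, e2, ← smul_sub]
      congr 1
      abel
    rw [e, norm_smul, htn]
    calc t⁻¹ * ‖(C₂ (D x + (t : ℂ) • x) - Y (D x + (t : ℂ) • x)) - (C₁ (D x) - Y (D x))‖
        ≤ t⁻¹ * (‖C₂ (D x + (t : ℂ) • x) - Y (D x + (t : ℂ) • x)‖ +
          ‖C₁ (D x) - Y (D x)‖) := by
          gcongr
          exact norm_sub_le _ _
      _ < t⁻¹ * (ε * t / 2 + ε * t / 2) := by
          gcongr
      _ = ε := by field_simp; ring

/-- **The main theorem.** -/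
theorem main [CompleteSpace X] (hX : Refl X) (A : Subalgebra ℂ (X →L[ℂ] X))
    (hA : Trans (A : Set (X →L[ℂ] X))) {T Y : X →L[ℂ] X} (hT : ∀ C ∈ A, C * T = T * C)
    (hY' : ¬ IsMeagre {x | Apx (A : Set (X →L[ℂ] X)) Y x}) : Y * T = T * Y := by
  have hY := apx_all A hA hY'
  by_cases hns : ∃ c : ℂ, T = c • 1
  · obtain ⟨c, rfl⟩ := hns
    rw [mul_smul_comm, smul_mul_assoc, mul_one, one_mul]
  push Not at hns
  -- `δ² = 0` on the algebra of all local operators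
  have h2 : ∀ W, (∀ x, Apx (A : Set (X →L[ℂ] X)) W x) →
      (W * T - T * W) * T - T * (W * T - T * W) = 0 := fun W hW =>
    second_zero hX hA hT hns hW
  have h3 : ∀ V W, (∀ x, Apx (A : Set (X →L[ℂ] X)) V x) →
      (∀ x, Apx (A : Set (X →L[ℂ] X)) W x) → (V * T - T * V) * (W * T - T * W) = 0 := by
    intro V W hV hW
    have e := h2 _ (apx_mul A hV hW)
    have eV := h2 V hV
    have eW := h2 W hW
    have key : (V * W * T - T * (V * W)) * T - T * (V * W * T - T * (V * W)) =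
        V * ((W * T - T * W) * T - T * (W * T - T * W)) +
          ((V * T - T * V) * T - T * (V * T - T * V)) * W +
          (2 : ℂ) • ((V * T - T * V) * (W * T - T * W)) := by
      rw [two_smul]
      noncomm_ring
    rw [e, eV, eW, mul_zero, zero_mul, zero_add, zero_add] at key
    exact (smul_eq_zero.1 key.symm).resolve_left two_ne_zero
  have h4 : ∀ Z ∈ A, (Y * T - T * Y) * (Z * (Y * T - T * Y)) = 0 := by
    intro Z hZ
    have hZl : ∀ x, Apx (A : Set (X →L[ℂ] X)) Z x := fun x =>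
      ⟨‖Z‖, fun ε hε => ⟨Z, hZ, le_rfl, by simpa using hε⟩⟩
    have e1 := h3 (Y * Z) Y (apx_mul A hY hZl) hY
    have e2 := h3 Z Y hZl hY
    have key : (Y * Z * T - T * (Y * Z)) * (Y * T - T * Y) =
        Y * ((Z * T - T * Z) * (Y * T - T * Y)) + (Y * T - T * Y) * (Z * (Y * T - T * Y)) := by
      noncomm_ring
    rw [e1, e2, mul_zero, zero_add] at key
    exact key.symm
  by_contra hne
  have hne' : Y * T - T * Y ≠ 0 := sub_ne_zero.2 hne
  obtain ⟨v, hv⟩ : ∃ v, (Y * T - T * Y) v ≠ 0 := by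
    by_contra hcon
    push Not at hcon
    exact hne' (ContinuousLinearMap.ext hcon)
  exact hne' (kill A hA _ hv _ fun C hC => congrArg (fun B : X →L[ℂ] X => B v) (h4 C hC))

end Pool.Agent.Q89.AL
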